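import Pool.Agent.H41.HYP.S2

/-!
# HYP: classes of units
-/

set_option autoImplicit false

namespace Pool.HYP

open Polynomial Pool.AVS

namespace Tyu9

variable {L : Type} [Field L]

theorem oL_mul (O : ValuationSubring L) (p q : O[X]) : oL O (p * q) = oL O p * oL O q :=
  Polynomial.map_mul _

theorem oL_add (O : ValuationSubring L) (p q : O[X]) : oL O (p + q) = oL O p + oL O q :=
  Polynomial.map_add _

theorem oL_pow (O : ValuationSubring L) (p : O[X]) (n : ℕ) : oL O (p ^ n) = oL O p ^ n :=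
  Polynomial.map_pow _ n

theorem oL_lin (O : ValuationSubring L) (c : O) : oL O (X - C c) = X - C (c : L) := by
  have h : oL O (X - C c) = (X - C c).map (algebraMap O L) := rfl
  rw [h, Polynomial.map_sub, map_X, map_C]
  rfl

theorem rd_mul (O : ValuationSubring L) (p q : O[X]) : rd O (p * q) = rd O p * rd O q :=
  Polynomial.map_mul _

theorem rd_add (O : ValuationSubring L) (p q : O[X]) : rd O (p + q) = rd O p + rd O q :=
  Polynomial.map_add _

theorem rd_pow (O : ValuationSubring L) (p : O[X]) (n : ℕ) : rd O (p ^ n) = rd O p ^ n :=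
  Polynomial.map_pow _ n

theorem rd_lin (O : ValuationSubring L) (c : O) :
    rd O (X - C c) = X - C (IsLocalRing.residue O c) := by
  have h : rd O (X - C c) = (X - C c).map (IsLocalRing.residue O) := rfl
  rw [h, Polynomial.map_sub, map_X, map_C]

/-- A polynomial of degree at least two which is irreducible has no root. -/
theorem eval_unit {O : ValuationSubring L} {g : ℕ} {γ : O[X]} (hg : 1 ≤ g) (hγ : OkL O g γ)
    (c : O) : IsUnit (γ.eval c) := by
  obtain ⟨hm, hd, hi⟩ := hγ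
  by_contra h
  have h1 : IsLocalRing.residue O (γ.eval c) = 0 := by
    rw [IsLocalRing.residue_eq_zero_iff]
    exact (IsLocalRing.mem_maximalIdeal _).mpr h
  have h2 : (rd O γ).IsRoot (IsLocalRing.residue O c) := by
    rw [IsRoot.def, eval_map, eval₂_hom]
    exact h1
  have h3 := degree_eq_one_of_irreducible_of_root hi h2
  have h4 : (rd O γ).natDegree = 2 * g := by
    rw [hm.natDegree_map]
    exact hd
  have h5 := natDegree_eq_of_degree_eq_some (n := 1) h3
  omega

theorem ev_oL (O : ValuationSubring L) (p : O[X]) (c : O) :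
    (oL O p).eval (c : L) = ((p.eval c : O) : L) := by
  rw [show (c : L) = algebraMap O L c from rfl, eval_map, eval₂_hom]
  rfl

/-- The norm of `h ≡ π^n p` modulo `γ`. -/
theorem norm_form (hU : UNRStmt) {O : ValuationSubring L} {π : L} (hL : Loc L O π) {g : ℕ}
    {γ : O[X]} (hγ : OkL O g γ) {h : L[X]} {n : ℤ} {p : O[X]}
    (hp : IsCoprime (rd O p) (rd O γ)) (hd : oL O γ ∣ h - C (π ^ n) * oL O p) :
    ∃ v : L, UI (O : Set L) v ∧
      Algebra.norm L (AdjoinRoot.mk (oL O γ) h) = (π ^ (n * g)) ^ 2 * v := by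
  obtain ⟨hm, hdeg, hi⟩ := hγ
  refine ⟨_, (hU L O π hL γ hm hi).2.2.1 p hp, ?_⟩
  have h1 : AdjoinRoot.mk (oL O γ) h = AdjoinRoot.mk (oL O γ) (C (π ^ n) * oL O p) := by
    rw [← sub_eq_zero, ← map_sub]
    exact AdjoinRoot.mk_eq_zero.mpr hd
  have hm' : (oL O γ).Monic := hm.map _
  have h2 : Module.finrank L (AdjoinRoot (oL O γ)) = 2 * g := by
    rw [(AdjoinRoot.powerBasis' hm').finrank, AdjoinRoot.powerBasis'_dim, hm.natDegree_map, hdeg]
  have h3 : Algebra.norm L (AdjoinRoot.mk (oL O γ) (C (π ^ n))) = (π ^ (n * g)) ^ 2 := by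
    have : AdjoinRoot.mk (oL O γ) (C (π ^ n)) = algebraMap L _ (π ^ n) := by
      rw [AdjoinRoot.mk_C]
      rfl
    rw [this, Algebra.norm_algebraMap, h2, ← zpow_natCast, ← zpow_natCast, ← zpow_mul, ← zpow_mul]
    congr 1
    push_cast
    ring
  rw [h1, map_mul, map_mul, h3]

/-- A square times a unit with value `π^j u` has `j` even. -/
theorem even_of_sq {O : ValuationSubring L} {π : L} (hL : Loc L O π) {a u v : L} {j : ℤ}
    (hu : UI (O : Set L) u) (hv : UI (O : Set L) v) (ha : a ≠ 0)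
    (h : IsSquare (π ^ j * u * (a ^ 2 * v))) : ∃ i : ℤ, j = 2 * i := by
  obtain ⟨b, hb⟩ := h
  have hπ := hL.pi_ne
  have hb0 : b ≠ 0 := by
    rintro rfl
    rw [mul_zero] at hb
    have : π ^ j * u * (a ^ 2 * v) ≠ 0 :=
      mul_ne_zero (mul_ne_zero (zpow_ne_zero _ hπ) hu.1) (mul_ne_zero (pow_ne_zero _ ha) hv.1)
    exact this hb
  obtain ⟨k, hk1, hk2⟩ := hL.arch (b / a) (div_ne_zero hb0 ha)
  set t := b / a / π ^ k with ht
  have ht0 : t ≠ 0 := div_ne_zero (div_ne_zero hb0 ha) (zpow_ne_zero _ hπ)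
  have hbt : b = a * π ^ k * t := by
    rw [ht]
    field_simp
  have h1 : π ^ j * (u * v) = π ^ (2 * k) * t ^ 2 := by
    have h2 : a ^ 2 * (π ^ j * (u * v)) = a ^ 2 * (π ^ (2 * k) * t ^ 2) := by
      rw [two_mul, zpow_add₀ hπ]
      calc a ^ 2 * (π ^ j * (u * v)) = π ^ j * u * (a ^ 2 * v) := by ring
        _ = b * b := hb
        _ = (a * π ^ k * t) * (a * π ^ k * t) := by rw [← hbt]
        _ = _ := by ring
    exact mul_left_cancel₀ (pow_ne_zero 2 ha) h2
  have hw : π ^ (j - 2 * k) = t ^ 2 * (u⁻¹ * v⁻¹) := by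
    rw [zpow_sub₀ hπ, div_eq_iff (zpow_ne_zero _ hπ)]
    have hu0 := hu.1
    have hv0 := hv.1
    field_simp
    linear_combination h1
  have hmem : π ^ (j - 2 * k) ∈ O ∧ (π ^ (j - 2 * k))⁻¹ ∈ O := by
    rw [hw]
    refine ⟨?_, ?_⟩
    · exact O.mul_mem _ _ (by rw [pow_two]; exact O.mul_mem _ _ hk1 hk1)
        (O.mul_mem _ _ hu.2.2 hv.2.2)
    · rw [mul_inv, mul_inv, inv_inv, inv_inv, ← inv_pow]
      exact O.mul_mem _ _ (by rw [pow_two]; exact O.mul_mem _ _ hk2 hk2)
        (O.mul_mem _ _ hu.2.1 hv.2.1)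
  -- `π` is not a unit
  have hπu : π⁻¹ ∉ O := by
    rw [hL.unif π hL.pi_mem hπ, div_self hπ]
    exact O.one_mem
  have key : ∀ m : ℕ, 0 < m → (π ^ m)⁻¹ ∉ O := by
    intro m hm h
    apply hπu
    obtain ⟨m', rfl⟩ : ∃ m', m = m' + 1 := ⟨m - 1, by omega⟩
    have h3 : π⁻¹ = π ^ m' * (π ^ (m' + 1))⁻¹ := by
      rw [pow_succ]
      field_simp
    rw [h3]
    exact O.mul_mem _ _ (pow_mem hL.pi_mem _) h
  have h4 : j - 2 * k = 0 := by
    rcases lt_trichotomy (j - 2 * k) 0 with h5 | h5 | h5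
    · exfalso
      obtain ⟨m, hm⟩ := Int.eq_ofNat_of_zero_le (show 0 ≤ -(j - 2 * k) by omega)
      apply key m (by omega)
      have h6 := hmem.1
      rw [show j - 2 * k = -(m : ℤ) by omega, zpow_neg, zpow_natCast] at h6
      exact h6
    · exact h5
    · exfalso
      obtain ⟨m, hm⟩ := Int.eq_ofNat_of_zero_le (show 0 ≤ j - 2 * k by omega)
      apply key m (by omega)
      have h6 := hmem.2
      rw [hm, zpow_natCast] at h6
      exact h6
  exact ⟨k, by omega⟩

end Tyu9

open Tyu9 in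
/-- TYU: classes of units. -/
theorem tyu (hU : UNRStmt) (hN : NMUStmt) : TYUStmt := by
  intro L _ O π hL g c γ hg hγ h x hcop hsq hty
  obtain ⟨n, p, hp, hdv, hn, -⟩ := hty
  have hm := hγ.1
  have hi := hγ.2.2
  have hπ := hL.pi_ne
  have hγc := eval_unit hg hγ c
  have hγc' : (oL O γ).eval (c : L) ≠ 0 := by
    rw [ev_oL]
    intro h0
    exact hγc.ne_zero (Subtype.ext h0)
  have hmul : oL O ((X - C c) * γ) = (X - C (c : L)) * oL O γ := by
    rw [oL_mul, oL_lin]
  rw [hmul] at hcop hsq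
  have hXγ : IsCoprime (X - C (c : L)) (oL O γ) := by
    refine (irreducible_X_sub_C (c : L)).coprime_iff_not_dvd.mpr ?_
    rw [dvd_iff_isRoot]
    exact hγc'
  have hhc : h.eval (c : L) ≠ 0 := by
    have h1 := hcop.of_mul_right_left
    obtain ⟨a, b, hab⟩ := h1
    intro h0
    have h2 := congrArg (eval (c : L)) hab
    simp [h0] at h2
  have hγdeg : (oL O γ).natDegree = 2 * g := by rw [hm.natDegree_map]; exact hγ.2.1
  constructor
  · -- a unit class has even order
    rintro ⟨s, p', hs, hdv', hp'⟩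
    rw [hmul] at hs hdv'
    have hs' : ¬ oL O γ ∣ s := by
      intro h0
      have h1 : IsCoprime (oL O γ) (oL O γ) :=
        (hs.of_mul_right_right).of_isCoprime_of_dvd_left h0
      rw [isCoprime_self] at h1
      have h2 := natDegree_eq_zero_of_isUnit h1
      omega
    obtain ⟨k, q, hq, hdq⟩ := (hU L O π hL γ hm hi).1 s hs'
    have hp'γ : IsCoprime (rd O p') (rd O γ) := by
      rw [rd_mul] at hp'
      exact hp'.of_mul_right_right
    have h2 : oL O γ ∣ C (π ^ (n + 2 * k)) * oL O (p * q ^ 2) - C (π ^ (0 : ℤ)) * oL O p' := by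
      have e1 : oL O γ ∣ h * s ^ 2 - oL O p' := dvd_trans (Dvd.intro_left _ rfl) hdv'
      obtain ⟨a1, ha1⟩ := hdv
      obtain ⟨a2, ha2⟩ := hdq
      obtain ⟨a3, ha3⟩ := e1
      have e2 : oL O (p * q ^ 2) = oL O p * oL O q ^ 2 := by
        rw [oL_mul, oL_pow]
      have e3 : (C (π ^ (n + 2 * k)) : L[X]) = C (π ^ n) * C (π ^ k) ^ 2 := by
        rw [← C_pow, ← C_mul, zpow_add₀ hπ, mul_comm 2 k, zpow_mul]
        norm_cast
      rw [e2, e3, zpow_zero, C_1, one_mul]
      have e4 : C (π ^ n) * oL O p = h - oL O γ * a1 := by rw [← ha1]; ring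
      have e5 : C (π ^ k) * oL O q = s - oL O γ * a2 := by rw [← ha2]; ring
      have e6 : oL O p' = h * s ^ 2 - oL O γ * a3 := by rw [← ha3]; ring
      have e7 : C (π ^ n) * C (π ^ k) ^ 2 * (oL O p * oL O q ^ 2) =
          (C (π ^ n) * oL O p) * (C (π ^ k) * oL O q) ^ 2 := by ring
      rw [e7, e4, e5, e6]
      exact ⟨a3 - h * (2 * s * a2 - oL O γ * a2 ^ 2) - a1 * (s - oL O γ * a2) ^ 2, by ring⟩
    have hpq : IsCoprime (rd O (p * q ^ 2)) (rd O γ) := by
      have h1 : rd O (p * q ^ 2) = rd O p * rd O q ^ 2 := by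
        rw [rd_mul, rd_pow]
      rw [h1]
      exact hp.mul_left hq.pow_left
    have h3 := (hU L O π hL γ hm hi).2.1 _ _ _ _ hpq hp'γ h2
    rw [← hn, show n = 2 * (-k) by omega]
    push_cast
    rw [show (2 : ZMod 2) = 0 from rfl, zero_mul]
  · intro hx
    -- the order is even
    obtain ⟨m, rfl⟩ : ∃ m : ℤ, n = 2 * m := by
      have h1 : ((n : ℤ) : ZMod 2) = 0 := by rw [hn, hx]
      rw [ZMod.intCast_zmod_eq_zero_iff_dvd] at h1
      obtain ⟨m, hm⟩ := h1
      exact ⟨m, by exact_mod_cast hm⟩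
    obtain ⟨v, hv, hnv⟩ := norm_form hU hL hγ hp hdv
    obtain ⟨j, hj1, hj2⟩ := hL.arch _ hhc
    set u := h.eval (c : L) / π ^ j with hu
    have hu0 : u ≠ 0 := div_ne_zero hhc (zpow_ne_zero _ hπ)
    have hhu : h.eval (c : L) = π ^ j * u := by
      rw [hu]
      field_simp
    have hUIu : UI (O : Set L) u := ⟨hu0, hj1, hj2⟩
    obtain ⟨i, rfl⟩ : ∃ i : ℤ, j = 2 * i := by
      refine even_of_sq hL hUIu hv (zpow_ne_zero (2 * m * g) hπ) ?_
      have h1 := hsq
      unfold NSq at h1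
      rw [hN.1 L _ _ h (monic_X_sub_C _) (hm.map _), hN.2.1 L, hnv, hhu] at h1
      exact h1
    set u' : O := ⟨u, hj1⟩ with hu'
    have hu'u : IsUnit u' := by
      refine IsUnit.of_mul_eq_one (⟨u⁻¹, hj2⟩ : O) ?_
      apply Subtype.ext
      exact mul_inv_cancel₀ hu0
    obtain ⟨γi, hγi⟩ := hγc.exists_right_inv
    set P : O[X] := p + γ * C ((u' - p.eval c) * γi) with hP
    have hPc : P.eval c = u' := by
      rw [hP, eval_add, eval_mul, eval_C]
      linear_combination (u' - p.eval c) * hγi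
    set s : L[X] := C (π ^ (-m)) + oL O γ * C ((π ^ (-i) - π ^ (-m)) * ((oL O γ).eval (c : L))⁻¹)
      with hs
    have hsc : s.eval (c : L) = π ^ (-i) := by
      rw [hs, eval_add, eval_mul, eval_C, eval_C]
      field_simp
      ring
    refine ⟨s, P, ?_, ?_, ?_⟩
    · rw [hmul]
      refine IsCoprime.mul_right ?_ ?_
      · rw [isCoprime_comm]
        refine (irreducible_X_sub_C (c : L)).coprime_iff_not_dvd.mpr ?_
        rw [dvd_iff_isRoot, IsRoot.def, hsc]
        exact zpow_ne_zero _ hπ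
      · refine ⟨C (π ^ m), -(C (π ^ m) * C ((π ^ (-i) - π ^ (-m)) *
          ((oL O γ).eval (c : L))⁻¹)), ?_⟩
        have e1 : (C (π ^ m) : L[X]) * C (π ^ (-m)) = 1 := by
          rw [← C_mul, ← zpow_add₀ hπ, add_neg_cancel, zpow_zero, C_1]
        rw [hs]
        linear_combination e1
    · rw [hmul]
      refine hXγ.mul_dvd ?_ ?_
      · rw [dvd_iff_isRoot, IsRoot.def, eval_sub, eval_mul, eval_pow, hsc, ev_oL, hPc, hhu]
        have e1 : (π ^ (-i)) ^ 2 * π ^ (2 * i) = 1 := by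
          rw [← zpow_natCast, ← zpow_mul, ← zpow_add₀ hπ]
          rw [show -i * ((2 : ℕ) : ℤ) + 2 * i = 0 by push_cast; ring, zpow_zero]
        show π ^ (2 * i) * u * (π ^ (-i)) ^ 2 - u = 0
        linear_combination u * e1
      · obtain ⟨a1, ha1⟩ := hdv
        have e1 : (C (π ^ (2 * m)) : L[X]) * C (π ^ (-m)) ^ 2 = 1 := by
          rw [← C_pow, ← C_mul, ← zpow_natCast, ← zpow_mul, ← zpow_add₀ hπ]
          rw [show 2 * m + -m * ((2 : ℕ) : ℤ) = 0 by push_cast; ring, zpow_zero, C_1]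
        have e2 : oL O P = oL O p + oL O γ * oL O (C ((u' - p.eval c) * γi)) := by
          rw [hP, oL_add, oL_mul]
        have e3 : h = C (π ^ (2 * m)) * oL O p + oL O γ * a1 := by rw [← ha1]; ring
        rw [e2]
        set A := C ((π ^ (-i) - π ^ (-m)) * ((oL O γ).eval (c : L))⁻¹) with hA
        set B := oL O (C ((u' - p.eval c) * γi)) with hB
        refine ⟨a1 * s ^ 2 + C (π ^ (2 * m)) * oL O p * (2 * C (π ^ (-m)) * A + oL O γ * A ^ 2)
          - B, ?_⟩
        have e4 : h * s ^ 2 = (C (π ^ (2 * m)) * oL O p + oL O γ * a1) * s ^ 2 := by rw [← e3]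
        rw [e4, hs]
        linear_combination (oL O p) * e1
    · rw [rd_mul]
      refine IsCoprime.mul_right ?_ ?_
      · rw [rd_lin, isCoprime_comm]
        refine (irreducible_X_sub_C _).coprime_iff_not_dvd.mpr ?_
        rw [dvd_iff_isRoot, IsRoot.def, eval_map, eval₂_hom, hPc]
        intro h3
        rw [IsLocalRing.residue_eq_zero_iff] at h3
        exact (IsLocalRing.mem_maximalIdeal _).mp h3 hu'u
      · have h3 : rd O P = rd O p + rd O γ * rd O (C ((u' - p.eval c) * γi)) := by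
          rw [hP, rd_add, rd_mul]
        rw [h3]
        exact hp.add_mul_left_left _

end Pool.HYP
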