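import Pool.Agent.H41.HYP.S1

/-!
# HYP: scaling of the roots
-/

set_option autoImplicit false

namespace Pool.HYP

open Polynomial Matrix

namespace Scal9

variable {L : Type} [Field L]

theorem mod_comp (f p : L[X]) {d : L} (_hd : d ≠ 0) (hf : f.Monic) :
    (p.comp (C d * X)) %ₘ f = (p %ₘ f.scaleRoots d).comp (C d * X) := by
  have hfd : (f.scaleRoots d).Monic := (monic_scaleRoots_iff d).mpr hf
  have h1 : (f.scaleRoots d).comp (C d * X) = C (d ^ f.natDegree) * f := by
    ext i
    rw [comp_C_mul_X_coeff, coeff_scaleRoots, coeff_C_mul]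
    rcases le_or_gt i f.natDegree with hi | hi
    · rw [mul_assoc, ← pow_add, Nat.sub_add_cancel hi, mul_comm]
    · rw [coeff_eq_zero_of_natDegree_lt hi]
      ring
  have h2 : p.comp (C d * X) = (p %ₘ f.scaleRoots d).comp (C d * X) +
      f * (C (d ^ f.natDegree) * (p /ₘ f.scaleRoots d).comp (C d * X)) := by
    conv_lhs => rw [← modByMonic_add_div p (f.scaleRoots d), add_comp, mul_comp, h1]
    ring
  have h3 : ((p %ₘ f.scaleRoots d).comp (C d * X)).degree < f.degree := by
    have h4 : (p %ₘ f.scaleRoots d).degree < f.degree := by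
      have := degree_modByMonic_lt p hfd
      rwa [degree_scaleRoots] at this
    refine lt_of_le_of_lt ?_ h4
    rw [degree_le_iff_coeff_zero]
    intro m hm
    rw [comp_C_mul_X_coeff, coeff_eq_zero_of_degree_lt hm, zero_mul]
  exact ((div_modByMonic_unique _ _ hf ⟨h2.symm, h3⟩).2)

theorem tau_comp (f p : L[X]) {d : L} (hd : d ≠ 0) (hf : f.Monic) :
    tau f (p.comp (C d * X)) = d ^ (f.natDegree - 1) * tau (f.scaleRoots d) p := by
  unfold tau
  rw [mod_comp f p hd hf, comp_C_mul_X_coeff, natDegree_scaleRoots, mul_comm]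

theorem gr_comp (n : ℕ) (f u : L[X]) {d : L} (hd : d ≠ 0) (hf : f.Monic) (i j : Fin n) :
    d ^ (i : ℕ) * gr 0 n f (u.comp (C d * X)) i j * d ^ (j : ℕ) =
      d ^ (f.natDegree - 1) * gr 0 n (f.scaleRoots d) u i j := by
  unfold gr
  simp only [Matrix.of_apply]
  rw [← tau_comp f _ hd hf]
  have h1 : (X ^ ((i : ℕ) + (j : ℕ) + 0) * u).comp (C d * X) =
      C (d ^ ((i : ℕ) + (j : ℕ))) * (X ^ ((i : ℕ) + (j : ℕ) + 0) * u.comp (C d * X)) := by
    rw [mul_comp, X_pow_comp, mul_pow, add_zero, ← C_pow]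
    ring
  have h2 : ∀ (a : L) (q : L[X]), tau f (C a * q) = a * tau f q := by
    intro a q
    unfold tau
    rw [← smul_eq_C_mul, smul_modByMonic, coeff_smul, smul_eq_mul]
  rw [h1, h2, pow_add]
  ring

theorem li_scale {g n : ℕ} (e : Fin g → Fin n → L) (he : LinearIndependent L e) (w : Fin n → L)
    (hw : ∀ k, w k ≠ 0) : LinearIndependent L (fun i k => w k * e i k) := by
  rw [Fintype.linearIndependent_iff] at he ⊢
  intro a ha
  apply he a
  funext k
  have h1 := congrFun ha k
  rw [Finset.sum_apply] at h1 ⊢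
  simp only [Pi.smul_apply, smul_eq_mul, Pi.zero_apply] at h1 ⊢
  have h2 : w k * ∑ i, a i * e i k = 0 := by
    rw [Finset.mul_sum, ← h1]
    exact Finset.sum_congr rfl fun i _ => by ring
  exact (mul_eq_zero.mp h2).resolve_left (hw k)

/-- Isotropic subspaces for `G` and `G'`, if `w_k G_kl w_l = c G'_kl`. -/
theorem spl_scale {g n : ℕ} (G G' : Matrix (Fin n) (Fin n) L) (w : Fin n → L) (c : L)
    (hw : ∀ k, w k ≠ 0) (h : ∀ k l, w k * G k l * w l = c * G' k l) (hs : SplM g G') :
    SplM g G := by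
  obtain ⟨e, he, h0⟩ := hs
  refine ⟨fun i k => w k * e i k, li_scale e he w hw, fun i j => ?_⟩
  have h1 := h0 i j
  simp only [dotProduct, Matrix.mulVec] at h1 ⊢
  have h2 : ∑ k, w k * e i k * ∑ l, G k l * (w l * e j l) =
      c * ∑ k, e i k * ∑ l, G' k l * e j l := by
    rw [Finset.mul_sum]
    refine Finset.sum_congr rfl fun k _ => ?_
    rw [Finset.mul_sum, Finset.mul_sum, Finset.mul_sum]
    refine Finset.sum_congr rfl fun l _ => ?_
    linear_combination (e i k * e j l) * h k l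
  rw [h2, h1, mul_zero]

end Scal9

open Scal9 in
/-- SCAL: scaling of the roots. -/
theorem scal : SCALStmt := by
  intro L _ g n f u d hd hf hn
  have hw : ∀ k : Fin n, d ^ (k : ℕ) ≠ 0 := fun k => pow_ne_zero _ hd
  have hw' : ∀ k : Fin n, (d ^ (k : ℕ))⁻¹ ≠ 0 := fun k => inv_ne_zero (hw k)
  have hc : d ^ (f.natDegree - 1) ≠ 0 := pow_ne_zero _ hd
  constructor
  · intro h
    refine spl_scale _ _ (fun k : Fin n => (d ^ (k : ℕ))⁻¹) (d ^ (f.natDegree - 1))⁻¹ hw'
      (fun k l => ?_) h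
    have h1 := gr_comp n f u hd hf k l
    have h2 := hw k
    have h3 := hw l
    field_simp
    linear_combination -h1
  · intro h
    exact spl_scale _ _ (fun k : Fin n => d ^ (k : ℕ)) (d ^ (f.natDegree - 1)) hw
      (fun k l => gr_comp n f u hd hf k l) h

end Pool.HYP
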